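import Pool.Agent.RL2.Thm

/-!
# The dichotomy as one statement
-/

namespace Pool.Agent.RL2

open Pool.Agent.H19

/-- Either no polynomial-time function constructs the proofs and no program does so in time `n ^ k`
with linear advice, for any large `n`, or all proofs are longer than `n ^ k`. -/
theorem dichotomy3 (μ : Fm) (hμ : IsUniversal μ) (P : Code → ℕ → Fm) (hP : IsFormalisation μ P)
    (S T₀ : Set Fm) (hS : InClassT S) (hT₀ : InClassT T₀) :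
    ∃ d : ℕ, ∀ k : ℕ, ∃ (c : Code) (κ : ℕ), κ ≤ d * (k + 1) ∧ HaltsWithin c κ ∧
      theory c κ = T₀ ∧
      ((¬ (∃ f : T → T, PolyTime f ∧ ∃ n₀ : ℕ, ∀ n ≥ n₀, ∃ π : List Step,
          f (T.unary n) = encProof π ∧ IsProof S π (rfn (P c κ) μ n)) ∧
        ∀ a : Code, ∃ n₀ : ℕ, ∀ n ≥ n₀, ∀ w : T, 500 * w.size ≤ n →
          ¬ ∃ (t : ℕ) (π : List Step), Eval a (T.node (T.unary n) w) (encProof π) t ∧
            t ≤ n ^ k ∧ IsProof S π (rfn (P c κ) μ n)) ∨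
        ∃ n₀ : ℕ, ∀ n ≥ n₀, ∀ π : List Step, IsProof S π (rfn (P c κ) μ n) →
          n ^ k < (encProof π).size) := by
  obtain ⟨d, hd⟩ := dichotomy2 μ hμ P hP S T₀ hS hT₀
  refine ⟨d, fun k => ?_⟩
  obtain ⟨c, κ, h1, h2, h3, h4, h5⟩ := hd k
  refine ⟨c, κ, h1, h2, h3, ?_⟩
  rcases h5 with h5 | h5
  · refine Or.inl ⟨h5, fun a => ?_⟩
    obtain ⟨n₀, hn₀⟩ := h4 a
    refine ⟨n₀, fun n hn w hw => ?_⟩
    rintro ⟨t, π, he, ht, hπ⟩
    exact hn₀ n hn w hw _ t he ht π rfl hπ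
  · exact Or.inr h5

end Pool.Agent.RL2
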