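import Pool.Agent.RL.Thm

/-!
# The uniform diagonal presentations

For every `k` the program `progK cG cM cn k` accepts `falsum v` if `v` describes a success of a
program with advice under the clock `n ^ k` (as in the theorem for a fixed exponent), or a success
as in `RL.Thm`. Its clock is linear in `k`.
-/

namespace Pool.Agent.RL2

open Pool.Agent.H19 Pool.Agent.H19.T Pool.Agent.RL

section
variable (S : Set Fm) (μ : Fm) (fP : T → T) (m₁ : ℕ)

/-- The output of the program described by `v` on the argument and the advice described by `v`,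
under the clock `w`. -/
def outW (v w : T) : T :=
  simul (T.node v.left.left (T.node (T.node (T.unary (nOf v)) v.left.right) w))

/-- The description `v` describes a success of a program, under the clock `w`, in proving the
reflection sentence of the presentation coded by `q`. -/
def SuccF (v w q : T) : Prop :=
  m₁ ≤ v.right.left.len ∧ v.size ≤ 3 * v.right.left.len ∧
    IsProof S (decProof (outW v w)) (rfn (decFm (fP q)) μ (nOf v))

end

/-- The program for the exponent `k`. -/
def progK (cG cM cn : Code) (k : ℕ) : Code :=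
  Code.comp cG (Code.pair (Code.const (T.unary k)) (Code.pair Code.id (Code.comp (powC cM k) cn)))

/-- Its code, from the code of `cG`. -/
def progKE (gE : T) (cM cn : Code) (k : ℕ) : T :=
  T.node (T.unary 5) (T.node gE (T.node (T.unary 4) (T.node (qt (T.unary k)) (T.node (T.unary 4)
    (T.node Code.id.enc (T.node (T.unary 5) (T.node (powE cM.enc k) cn.enc)))))))

theorem progKE_eq (cG cM cn : Code) (k : ℕ) :
    progKE cG.enc cM cn k = (progK cG cM cn k).enc := by
  simp only [progKE, progK, Code.enc, qt_eq, powE_eq]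

theorem progKE_polyTime (cM cn : Code) {g : T → T} {f : T → ℕ} (hg : PolyTime g)
    (hf : PolyNat f) : PolyTime (fun x => progKE (g x) cM cn (f x)) := by
  have c : ∀ a : T, PolyTime (fun _ => a) := fun a => PolyTime.const a
  exact (c _).node (hg.node ((c _).node ((qt_polyTime.comp hf.unary).node ((c _).node
    ((c _).node ((c _).node ((powE_polyTime cM.enc hf).node (c _))))))))

/-- The code of the presentation for the exponent `k`, from the code `g` of the inner decider. -/
def Qk (cM cn : Code) (C₀ : ℕ) (g : T) (k : ℕ) : T :=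
  T.node (progKE g.left cM cn k) (T.unary (C₀ * (g.right.len + 1) * (k + 3)))

theorem Qk_polyTime (cM cn : Code) (C₀ : ℕ) {g : T → T} {f : T → ℕ} (hg : PolyTime g)
    (hf : PolyNat f) : PolyTime (fun x => Qk cM cn C₀ (g x) (f x)) :=
  (progKE_polyTime cM cn hg.left hf).node (((PolyNat.const C₀).mul
    ((PolyNat.len hg.right).add (PolyNat.const 1))).mul (hf.add (PolyNat.const 3))).unary

section
variable (S : Set Fm) (μ : Fm) (fP f₀ : T → T) (cG₁ cM₁ cm cL cM cn : Code) (β m₁ C₀ : ℕ)

open Classical in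
/-- The inner decider; its argument is `node (node (unary k) (node x w)) g`. -/
noncomputable def DD (z : T) : T :=
  if (falsum (unfalsum z.left.right.left)).enc = z.left.right.left ∧
    (Success S μ fP cG₁ cM₁ cm cL β m₁ (unfalsum z.left.right.left)
        (Qk cM cn C₀ z.right z.left.left.len) ∨
      SuccF S μ fP m₁ (unfalsum z.left.right.left) z.left.right.right
        (Qk cM cn C₀ z.right z.left.left.len))
  then T.node T.leaf T.leaf else f₀ z.left.right.left

end

theorem success_polyDec {S : Set Fm} {μ : Fm} {fP : T → T} {cG cM cm cL : Code} {β m₁ : ℕ}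
    (hS : DecTh S) (hfP : PolyTime fP) {v q : T → T} (hv : PolyTime v) (hq : PolyTime q) :
    PolyDec (fun z => Success S μ fP cG cM cm cL β m₁ (v z) (q z)) := by
  refine ((PolyDec.le (PolyNat.const m₁) (PolyNat.len hv.right.left)).and
      ((PolyDec.le (PolyNat.len hv.left.right.right) (PolyNat.len hv.right.left)).and
      ((PolyDec.le_pow (PolyNat.len hv.right.left)
        (((PolyNat.const 100).mul (PolyNat.size hv)).add (PolyNat.const m₁))
        (PolyNat.len hv.left.right.left)).and ?_)))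
  have hD : PolyTime (fun z : T => T.node (v z).left (q z)) := hv.left.node hq
  have h := (isProof_polyDec hS).comp (hv.right.right.node
    (rfn_polyTime μ (hfP.comp (((progE_polyTime cG cM cm cL).comp hD).node
      ((kap_polyNat β).comp hD).unary)) (PolyNat.len hv.right.left)))
  refine h.congr fun z => ?_
  simp only [T.left_node, T.right_node, decFm_enc]

theorem succF_polyDec {S : Set Fm} {μ : Fm} {fP : T → T} {m₁ : ℕ}
    (hS : DecTh S) (hfP : PolyTime fP) {v w q : T → T} (hv : PolyTime v) (hw : PolyTime w)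
    (hq : PolyTime q) :
    PolyDec (fun z => SuccF S μ fP m₁ (v z) (w z) (q z)) := by
  have hn : PolyNat (fun z : T => nOf (v z)) :=
    ((PolyNat.const 200).mul (PolyNat.len hv.right.left)).add (PolyNat.len hv.right.right)
  have hout : PolyTime (fun z : T => outW (v z) (w z)) :=
    simul_polyTime.comp (hv.left.left.node (((hn.unary).node hv.left.right).node hw))
  refine ((PolyDec.le (PolyNat.const m₁) (PolyNat.len hv.right.left)).and
    ((PolyDec.le (PolyNat.size hv) ((PolyNat.const 3).mul (PolyNat.len hv.right.left))).and ?_))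
  have h := (isProof_polyDec hS).comp (hout.node (rfn_polyTime μ (hfP.comp hq) hn))
  refine h.congr fun z => ?_
  simp only [T.left_node, T.right_node, decFm_enc]

theorem DD_polyTime {S : Set Fm} {μ : Fm} {fP f₀ : T → T} {cG₁ cM₁ cm cL cM cn : Code}
    {β m₁ C₀ : ℕ} (hS : DecTh S) (hfP : PolyTime fP) (hf₀ : PolyTime f₀) :
    PolyTime (DD S μ fP f₀ cG₁ cM₁ cm cL cM cn β m₁ C₀) := by
  have i := PolyTime.id
  have hx : PolyTime (fun z : T => z.left.right.left) := i.left.right.left
  have hv : PolyTime (fun z : T => unfalsum z.left.right.left) :=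
    uu_polyTime.comp hx.right.left.right.left
  have hq : PolyTime (fun z : T => Qk cM cn C₀ z.right z.left.left.len) :=
    Qk_polyTime cM cn C₀ i.right (PolyNat.len i.left.left)
  have hdec := (PolyDec.eq (falsum_polyTime.comp hv) hx).and
    ((success_polyDec (μ := μ) (cG := cG₁) (cM := cM₁) (cm := cm) (cL := cL) (β := β) (m₁ := m₁)
      hS hfP hv hq).or (succF_polyDec (μ := μ) (m₁ := m₁) hS hfP hv i.left.right.right hq))
  refine (PolyTime.ifP hdec (PolyTime.const (T.node T.leaf T.leaf)) (hf₀.comp hx)).congr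
    fun z => ?_
  unfold DD
  split_ifs <;> rfl

/-- The bound for the exponents. -/
theorem exponent_boundK (kn kM : ℕ) : ∃ C₀ : ℕ, ∀ k κ : ℕ,
    ∀ e1 e2 e3 e5 : ℕ, e1 = (1 + 1) * kn → e2 = (e1 + 4) * (kM + 1) * (k + 3) →
      e3 = e1 + e2 + 1 → e5 = (2 * k + 1) + (1 + e3 + 1) + 1 →
      e5 + (e5 + 1) * κ + 1 ≤ C₀ * (κ + 1) * (k + 3) := by
  refine ⟨2 * kn + (2 * kn + 4) * (kM + 1) + 10, ?_⟩
  intro k κ e1 e2 e3 e5 h1 h2 h3 h5
  obtain ⟨a, ha⟩ : ∃ a, a = (2 * kn + 4) * (kM + 1) := ⟨_, rfl⟩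
  have g2 : e2 = a * (k + 3) := by rw [h2, h1, ha]
  rw [← ha]
  have g5 : e5 + 1 ≤ (2 * kn + a + 10) * (k + 3) := by
    rw [h5, h3, g2, h1]
    have : (2 * kn + a + 10) * (k + 3) = 2 * kn * (k + 3) + a * (k + 3) + 10 * (k + 3) := by ring
    rw [this]
    have h6 : 2 * kn ≤ 2 * kn * (k + 3) := Nat.le_mul_of_pos_right _ (by omega)
    omega
  calc e5 + (e5 + 1) * κ + 1 = (e5 + 1) * (κ + 1) := by ring
    _ ≤ ((2 * kn + a + 10) * (k + 3)) * (κ + 1) := Nat.mul_le_mul_right _ g5
    _ = _ := by ring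

/-- The cost of `progK`, from the cost of `cG`. -/
theorem progK_cost {cM cn : Code} {kM kn C₀ : ℕ}
    (hM : ∀ x : T, ∃ t : ℕ, Eval cM x (mulU x.left x.right) t ∧ t ≤ (x.size + 2) ^ kM)
    (hn : ∀ x : T, ∃ t : ℕ, Eval cn x (T.unary (nOf (unfalsum x))) t ∧ t ≤ (x.size + 2) ^ kn)
    (hC : ∀ k κ : ℕ, ∀ e1 e2 e3 e5 : ℕ, e1 = (1 + 1) * kn → e2 = (e1 + 4) * (kM + 1) * (k + 3) →
      e3 = e1 + e2 + 1 → e5 = (2 * k + 1) + (1 + e3 + 1) + 1 →
      e5 + (e5 + 1) * κ + 1 ≤ C₀ * (κ + 1) * (k + 3))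
    {cG : Code} {κ : ℕ} {F : T → T}
    (hG : ∀ x : T, ∃ t : ℕ, Eval cG x (F x) t ∧ t ≤ (x.size + 2) ^ κ) (k : ℕ) (x : T) :
    ∃ t : ℕ, Eval (progK cG cM cn k) x
        (F (T.node (T.unary k) (T.node x (T.unary (nOf (unfalsum x) ^ k))))) t ∧
      t ≤ (x.size + 2) ^ (C₀ * (κ + 1) * (k + 3)) := by
  obtain ⟨s, hs⟩ : ∃ s, s = x.size + 2 := ⟨_, rfl⟩
  have hs3 : 3 ≤ s := by have := T.size_pos x; omega
  rw [← hs]
  obtain ⟨m, hmm⟩ : ∃ m, m = nOf (unfalsum x) := ⟨_, rfl⟩
  obtain ⟨e1, he1⟩ : ∃ e, e = (1 + 1) * kn := ⟨_, rfl⟩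
  obtain ⟨e2, he2⟩ : ∃ e, e = (e1 + 4) * (kM + 1) * (k + 3) := ⟨_, rfl⟩
  obtain ⟨e3, he3⟩ : ∃ e, e = e1 + e2 + 1 := ⟨_, rfl⟩
  obtain ⟨e5, he5⟩ : ∃ e, e = (2 * k + 1) + (1 + e3 + 1) + 1 := ⟨_, rfl⟩
  have c1 : Cost cn x (T.unary m) s e1 := by
    rw [he1, hmm]
    exact Cost.poly hn hs3 (by rw [pow_one]; omega)
  have z1 : 2 * m + 1 ≤ s ^ e1 := by have := c1.size; rwa [T.size_unary] at this
  have c2 : Cost (powC cM k) (T.unary m) (T.unary (m ^ k)) s e2 := by
    rw [he2]; exact powC_cost hM hs3 z1 k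
  have c3 : Cost (Code.comp (powC cM k) cn) x (T.unary (m ^ k)) s e3 := by
    rw [he3]; exact Cost.comp hs3 c1 c2
  have c0 : Cost (Code.const (T.unary k)) x (T.unary k) s (2 * k + 1) := by
    have := Cost.const (x := x) (a := T.unary k) hs3
    rwa [T.size_unary] at this
  have c5 : Cost (Code.pair (Code.const (T.unary k)) (Code.pair Code.id
      (Code.comp (powC cM k) cn))) x (T.node (T.unary k) (T.node x (T.unary (m ^ k)))) s e5 := by
    rw [he5]
    exact Cost.pair hs3 c0 (Cost.pair hs3 (Cost.id (by rw [pow_one]; omega)) c3)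
  have c8 := Cost.comp hs3 c5 (Cost.poly hG hs3 c5.size)
  have c9 := c8.mono hs3 (hC k κ e1 e2 e3 e5 he1 he2 he3 he5)
  rw [progK, ← hmm]
  exact c9

end Pool.Agent.RL2
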